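import Pool.Agent.H27.G.R_seed8.Y969.GP.Def
import Pool.Agent.H27.G.R_seed8.TH41.LP.SHIFT
import Pool.Agent.H27.G.R_seed8.W182.KO.Strip
import Pool.Agent.H27.G.R_seed8.H437R2.A1

set_option autoImplicit false

/-!
Project GP, smooth approximate functional equation, part A: the entire function, the contour
shift and the functional equation.
-/

namespace Pool.Agent.Y891.GP

open Complex Filter Topology MeasureTheory Set
open Pool.Agent.Y969.GP

theorem poly_exp (n : ℕ) (t : ℝ) :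
    (1 + |t|) ^ n * Real.exp (-(1 / 2) * t ^ 2) ≤ n.factorial * Real.exp (3 / 2) := by
  have h0 : (0 : ℝ) ≤ 1 + |t| := by positivity
  have h1 := Real.pow_div_factorial_le_exp (1 + |t|) h0 n
  have hf : (0 : ℝ) < n.factorial := by exact_mod_cast n.factorial_pos
  rw [div_le_iff₀ hf] at h1
  calc (1 + |t|) ^ n * Real.exp (-(1 / 2) * t ^ 2)
      ≤ (Real.exp (1 + |t|) * n.factorial) * Real.exp (-(1 / 2) * t ^ 2) := by gcongr
    _ = n.factorial * Real.exp ((1 + |t|) + -(1 / 2) * t ^ 2) := by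
        rw [Real.exp_add (1 + |t|) (-(1 / 2) * t ^ 2)]; ring
    _ ≤ n.factorial * Real.exp (3 / 2) := by
        gcongr
        have : t ^ 2 = |t| ^ 2 := (sq_abs t).symm
        nlinarith [sq_nonneg (|t| - 1)]

theorem z1_eq_mul {s : ℂ} (hs : s ≠ 1) : riemannZeta₁ s = (s - 1) * riemannZeta s := by
  rw [riemannZeta_eq_inv_sub_mul hs, mul_inv_cancel_left₀ (sub_ne_zero.2 hs)]

theorem z1_growth : ∃ (K : ℝ) (B : ℕ), 1 ≤ K ∧ ∀ s : ℂ, -(1 / 4) ≤ s.re →
    ‖riemannZeta₁ s‖ ≤ K * (1 + ‖s‖) ^ B := by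
  obtain ⟨K1, B1, hK1, hb⟩ := Pool.Agent.W182.KO.zeta_refl_bound (c := 5 / 4) (by norm_num)
  refine ⟨3 + K1, B1 + 2, by linarith, fun s hs => ?_⟩
  have hn : (1 : ℝ) ≤ 1 + ‖s‖ := by linarith [norm_nonneg s]
  have hn0 : (0 : ℝ) ≤ 1 + ‖s‖ := by linarith
  rcases le_or_gt (1 / 2) s.re with h | h
  · have h1 := Pool.Agent.H437R2.z1_norm_le h
    refine h1.trans ?_
    have h2 : (‖s‖ + 1) ^ 2 ≤ (1 + ‖s‖) ^ (B1 + 2) := by
      rw [add_comm ‖s‖ 1]
      exact pow_le_pow_right₀ hn (by omega)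
    exact mul_le_mul (by linarith) h2 (by positivity) (by linarith)
  · have hs1 : s ≠ 1 := by
      rintro rfl
      norm_num at h
    have h1 := hb (1 - s) (by simp; linarith) (by simp; linarith)
    rw [sub_sub_cancel] at h1
    rw [z1_eq_mul hs1, norm_mul]
    have h2 : ‖s - 1‖ ≤ 1 + ‖s‖ := by
      have := norm_sub_le s 1
      rw [norm_one] at this
      linarith
    have h3 : |(1 - s).im| ≤ ‖s‖ := by
      have := abs_im_le_norm s
      simpa using this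
    calc ‖s - 1‖ * ‖riemannZeta s‖ ≤ (1 + ‖s‖) * (K1 * (1 + |(1 - s).im|) ^ B1) := by
          gcongr
      _ ≤ (1 + ‖s‖) * (K1 * (1 + ‖s‖) ^ B1) := by gcongr
      _ = K1 * (1 + ‖s‖) ^ (B1 + 1) := by ring
      _ ≤ (3 + K1) * (1 + ‖s‖) ^ (B1 + 2) := by
          gcongr
          · linarith
          · omega

/-- the entire function whose value at `0` is `|ζ(1/2+iu)|²` -/
noncomputable def YY (u : ℝ) (w : ℂ) : ℂ :=
  riemannZeta₁ (1 / 2 + I * u + w) * riemannZeta₁ (1 / 2 - I * u + w) *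
    ((w + (1 / 2 + I * u)) * (w + (1 / 2 - I * u))) /
      ((1 / 2 + I * u) * (1 / 2 - I * u)) ^ 2 * cexp (w ^ 2)

/-- the even polynomial which removes the poles -/
noncomputable def qq (u : ℝ) (w : ℂ) : ℂ :=
  (w ^ 2 - (1 / 2 + I * u) ^ 2) * (w ^ 2 - (1 / 2 - I * u) ^ 2) /
    ((1 / 2 + I * u) * (1 / 2 - I * u)) ^ 2

theorem YY_diff (u : ℝ) : Differentiable ℂ (YY u) := by
  unfold YY
  have h1 : Differentiable ℂ (fun w : ℂ => riemannZeta₁ (1 / 2 + I * u + w)) :=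
    differentiable_riemannZeta₁.comp (by fun_prop)
  have h2 : Differentiable ℂ (fun w : ℂ => riemannZeta₁ (1 / 2 - I * u + w)) :=
    differentiable_riemannZeta₁.comp (by fun_prop)
  exact (((h1.mul h2).mul (by fun_prop)).div_const _).mul (by fun_prop)

theorem YY_bd (u : ℝ) : ∃ M : ℝ, ∀ s : ℂ, -(3 / 4) ≤ s.re → s.re ≤ 3 / 4 →
    ‖YY u s‖ ≤ M * Real.exp (-(1 / 2) * s.im ^ 2) := by
  obtain ⟨K, B, hK, hg⟩ := z1_growth
  obtain ⟨a, ha⟩ : ∃ a : ℂ, a = 1 / 2 + I * u := ⟨_, rfl⟩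
  obtain ⟨b, hb⟩ : ∃ b : ℂ, b = 1 / 2 - I * u := ⟨_, rfl⟩
  obtain ⟨N, hN⟩ : ∃ N : ℝ, N = 2 + ‖a‖ + ‖b‖ := ⟨_, rfl⟩
  have hN2 : 2 ≤ N := by rw [hN]; linarith [norm_nonneg a, norm_nonneg b]
  have hare : a.re = 1 / 2 := by rw [ha]; simp
  have hbre : b.re = 1 / 2 := by rw [hb]; simp
  refine ⟨K ^ 2 * N ^ (2 * B + 2) * ‖((a * b) ^ 2)‖⁻¹ * Real.exp 1 *
    ((2 * B + 2).factorial * Real.exp (3 / 2)), fun s h1 h2 => ?_⟩
  obtain ⟨x, hx⟩ : ∃ x : ℝ, x = 1 + |s.im| := ⟨_, rfl⟩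
  have hx1 : 1 ≤ x := by rw [hx]; linarith [abs_nonneg s.im]
  have hsn : ‖s‖ ≤ x := by
    have h3 := norm_le_abs_re_add_abs_im s
    have h4 : |s.re| ≤ 1 := abs_le.2 ⟨by linarith, by linarith⟩
    rw [hx]; linarith
  have hA : ∀ z : ℂ, ‖z‖ ≤ ‖a‖ + ‖b‖ → 1 + ‖z + s‖ ≤ N * x := by
    intro z hz
    have h3 := norm_add_le z s
    have h4 : 0 ≤ ‖a‖ + ‖b‖ := by positivity
    rw [hN]
    nlinarith
  have hNx : 0 ≤ N * x := by nlinarith
  have hza : 1 + ‖a + s‖ ≤ N * x := hA a (by linarith [norm_nonneg b])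
  have hzb : 1 + ‖b + s‖ ≤ N * x := hA b (by linarith [norm_nonneg a])
  have hga : ‖riemannZeta₁ (a + s)‖ ≤ K * (N * x) ^ B := by
    refine (hg (a + s) (by rw [add_re, hare]; linarith)).trans ?_
    gcongr
  have hgb : ‖riemannZeta₁ (b + s)‖ ≤ K * (N * x) ^ B := by
    refine (hg (b + s) (by rw [add_re, hbre]; linarith)).trans ?_
    gcongr
  have hla : ‖s + a‖ ≤ N * x := by
    rw [add_comm]; linarith
  have hlb : ‖s + b‖ ≤ N * x := by
    rw [add_comm]; linarith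
  have he : ‖cexp (s ^ 2)‖ ≤ Real.exp 1 * Real.exp (-(1 / 2) * s.im ^ 2) *
      Real.exp (-(1 / 2) * s.im ^ 2) := by
    rw [norm_exp, ← Real.exp_add, ← Real.exp_add]
    apply Real.exp_le_exp.2
    have h3 : (s ^ 2).re = s.re ^ 2 - s.im ^ 2 := by
      rw [pow_two, mul_re]; ring
    rw [h3]
    nlinarith
  have hpe := poly_exp (2 * B + 2) s.im
  rw [← hx] at hpe
  have hmain : ‖YY u s‖ ≤ (K * (N * x) ^ B) * (K * (N * x) ^ B) * ((N * x) * (N * x)) *
      ‖((a * b) ^ 2)‖⁻¹ * (Real.exp 1 * Real.exp (-(1 / 2) * s.im ^ 2) *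
      Real.exp (-(1 / 2) * s.im ^ 2)) := by
    unfold YY
    rw [← ha, ← hb, norm_mul, norm_div, div_eq_mul_inv, norm_mul, norm_mul, norm_mul]
    gcongr
  refine hmain.trans ?_
  have hpos : 0 ≤ K ^ 2 * N ^ (2 * B + 2) * ‖((a * b) ^ 2)‖⁻¹ * Real.exp 1 *
      Real.exp (-(1 / 2) * s.im ^ 2) := by positivity
  calc (K * (N * x) ^ B) * (K * (N * x) ^ B) * ((N * x) * (N * x)) *
      ‖((a * b) ^ 2)‖⁻¹ * (Real.exp 1 * Real.exp (-(1 / 2) * s.im ^ 2) *
      Real.exp (-(1 / 2) * s.im ^ 2))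
      = (K ^ 2 * N ^ (2 * B + 2) * ‖((a * b) ^ 2)‖⁻¹ * Real.exp 1 *
        Real.exp (-(1 / 2) * s.im ^ 2)) *
        (x ^ (2 * B + 2) * Real.exp (-(1 / 2) * s.im ^ 2)) := by ring
    _ ≤ (K ^ 2 * N ^ (2 * B + 2) * ‖((a * b) ^ 2)‖⁻¹ * Real.exp 1 *
        Real.exp (-(1 / 2) * s.im ^ 2)) * ((2 * B + 2).factorial * Real.exp (3 / 2)) :=
        mul_le_mul_of_nonneg_left hpe hpos
    _ = _ := by ring

theorem ab_ne (u : ℝ) : (1 / 2 + I * u : ℂ) * (1 / 2 - I * u) ≠ 0 := by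
  have h1 : (1 / 2 + I * u : ℂ) ≠ 0 := by
    intro h
    have := congrArg Complex.re h
    simp at this
  have h2 : (1 / 2 - I * u : ℂ) ≠ 0 := by
    intro h
    have := congrArg Complex.re h
    simp at this
  exact mul_ne_zero h1 h2

/-- away from the poles -/
theorem YY_eq (u : ℝ) (w : ℂ) (h1 : 1 / 2 + I * u + w ≠ 1) (h2 : 1 / 2 - I * u + w ≠ 1) :
    YY u w = riemannZeta (1 / 2 + I * u + w) * riemannZeta (1 / 2 - I * u + w) * qq u w *
      cexp (w ^ 2) := by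
  unfold YY qq
  rw [z1_eq_mul h1, z1_eq_mul h2]
  ring

theorem YY_zero (u : ℝ) : YY u 0 = (ff u : ℂ) := by
  have h1 : (1 / 2 + I * u + 0 : ℂ) ≠ 1 := by
    intro h
    have := congrArg Complex.re h
    norm_num at this
  have h2 : (1 / 2 - I * u + 0 : ℂ) ≠ 1 := by
    intro h
    have := congrArg Complex.re h
    norm_num at this
  rw [YY_eq u 0 h1 h2]
  have h3 : qq u 0 = 1 := by
    unfold qq
    have e : ((0 : ℂ) ^ 2 - (1 / 2 + I * u) ^ 2) * (0 ^ 2 - (1 / 2 - I * u) ^ 2) =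
        ((1 / 2 + I * u) * (1 / 2 - I * u)) ^ 2 := by ring
    rw [e, div_self (pow_ne_zero 2 (ab_ne u))]
  have h4 : (1 / 2 - I * u : ℂ) = (starRingEnd ℂ) (1 / 2 + I * u) := by
    apply Complex.ext <;> simp
  rw [h3, add_zero, add_zero, h4, riemannZeta_conj, mul_one]
  have h5 : cexp (0 ^ 2) = 1 := by simp
  rw [h5, mul_one, mul_conj, normSq_eq_norm_sq]
  rfl

theorem qq_neg (u : ℝ) (w : ℂ) : qq u (-w) = qq u w := by
  unfold qq
  ring

/-- the functional equation -/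
theorem YY_neg (u : ℝ) (w : ℂ) (hw : 1 / 2 < w.re) :
    YY u (-w) = YY u w * (XF (1 / 2 + w + I * u) * XF (1 / 2 + w - I * u)) := by
  have hre1 : (1 / 2 + I * u + w : ℂ).re = 1 / 2 + w.re := by simp
  have hre2 : (1 / 2 - I * u + w : ℂ).re = 1 / 2 + w.re := by simp
  have hre3 : (1 / 2 + I * u + -w : ℂ).re = 1 / 2 - w.re := by simp [sub_eq_add_neg]
  have hre4 : (1 / 2 - I * u + -w : ℂ).re = 1 / 2 - w.re := by simp [sub_eq_add_neg]
  have n1 : (1 / 2 + I * u + w : ℂ) ≠ 1 := by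
    intro h
    have := congrArg Complex.re h
    rw [hre1, one_re] at this
    linarith
  have n2 : (1 / 2 - I * u + w : ℂ) ≠ 1 := by
    intro h
    have := congrArg Complex.re h
    rw [hre2, one_re] at this
    linarith
  have n3 : (1 / 2 + I * u + -w : ℂ) ≠ 1 := by
    intro h
    have := congrArg Complex.re h
    rw [hre3, one_re] at this
    linarith
  have n4 : (1 / 2 - I * u + -w : ℂ) ≠ 1 := by
    intro h
    have := congrArg Complex.re h
    rw [hre4, one_re] at this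
    linarith
  have m1 : ∀ n : ℕ, (1 / 2 + I * u + w : ℂ) ≠ -n := by
    intro n h
    have := congrArg Complex.re h
    rw [hre1, neg_re, natCast_re] at this
    have h0 : (0 : ℝ) ≤ n := Nat.cast_nonneg n
    linarith
  have m2 : ∀ n : ℕ, (1 / 2 - I * u + w : ℂ) ≠ -n := by
    intro n h
    have := congrArg Complex.re h
    rw [hre2, neg_re, natCast_re] at this
    have h0 : (0 : ℝ) ≤ n := Nat.cast_nonneg n
    linarith
  rw [YY_eq u (-w) n3 n4, YY_eq u w n1 n2, qq_neg]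
  have e1 : riemannZeta (1 / 2 + I * u + -w) =
      XF (1 / 2 + w - I * u) * riemannZeta (1 / 2 - I * u + w) := by
    have h := riemannZeta_one_sub m2 n2
    rw [show (1 - (1 / 2 - I * u + w) : ℂ) = 1 / 2 + I * u + -w by ring] at h
    rw [h]
    unfold XF
    rw [show (1 / 2 + w - I * u : ℂ) = 1 / 2 - I * u + w by ring]
  have e2 : riemannZeta (1 / 2 - I * u + -w) =
      XF (1 / 2 + w + I * u) * riemannZeta (1 / 2 + I * u + w) := by
    have h := riemannZeta_one_sub m1 n1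
    rw [show (1 - (1 / 2 + I * u + w) : ℂ) = 1 / 2 - I * u + -w by ring] at h
    rw [h]
    unfold XF
    rw [show (1 / 2 + w + I * u : ℂ) = 1 / 2 + I * u + w by ring]
  rw [e1, e2, neg_sq]
  ring

end Pool.Agent.Y891.GP
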