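import Pool.Agent.H27.G.R_seed8.Y891.GP.AfeA

set_option autoImplicit false

/-!
Project GP, smooth approximate functional equation, part B: the integral over the line and the
error terms.
-/

namespace Pool.Agent.Y891.GP

open Complex Filter Topology MeasureTheory Set
open Pool.Agent.Y969.GP

theorem line_ne (c : ℝ) (hc : 0 < c) (t : ℝ) : ((c : ℂ) + I * t) ≠ 0 := by
  intro h
  have := congrArg Complex.re h
  simp at this
  linarith

theorem line_norm (c : ℝ) (hc : 0 < c) (t : ℝ) : c ≤ ‖((c : ℂ) + I * t)‖ := by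
  have h := abs_re_le_norm ((c : ℂ) + I * t)
  have h2 : ((c : ℂ) + I * t).re = c := by simp
  rw [h2, abs_of_pos hc] at h
  exact h

theorem int_aux (u c ρ e : ℝ) (hc : 0 < c) (hc' : c ≤ 3 / 4) (he : e ^ 2 = 1) :
    Integrable (fun t : ℝ => YY u ((e : ℂ) * (c + I * t)) *
      cexp (-((e : ℂ) * (c + I * t)) * ρ) / (c + I * t)) := by
  obtain ⟨M, hM⟩ := YY_bd u
  have he1 : e = 1 ∨ e = -1 := by
    rcases mul_eq_zero.1 (show (e - 1) * (e + 1) = 0 by nlinarith) with h | h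
    · left; linarith
    · right; linarith
  have hcont : Continuous (fun t : ℝ => YY u ((e : ℂ) * (c + I * t)) *
      cexp (-((e : ℂ) * (c + I * t)) * ρ) / (c + I * t)) := by
    refine Continuous.div ?_ (by fun_prop) (fun t => line_ne c hc t)
    exact ((YY_diff u).continuous.comp (by fun_prop)).mul (by fun_prop)
  refine Integrable.mono' (((integrable_exp_neg_mul_sq (show (0 : ℝ) < 1 / 2 by norm_num)).const_mul
    M).mul_const (Real.exp (-(e * c * ρ)) / c)) hcont.aestronglyMeasurable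
    (Eventually.of_forall fun t => ?_)
  have hre : ((e : ℂ) * (c + I * t)).re = e * c := by simp
  have him : ((e : ℂ) * (c + I * t)).im = e * t := by simp
  have h1 : ‖YY u ((e : ℂ) * (c + I * t))‖ ≤ M * Real.exp (-(1 / 2) * t ^ 2) := by
    have h := hM ((e : ℂ) * (c + I * t)) (by rw [hre]; rcases he1 with h | h <;> rw [h] <;> linarith)
      (by rw [hre]; rcases he1 with h | h <;> rw [h] <;> linarith)
    rw [him, mul_pow, he, one_mul] at h
    exact h
  have h2 : ‖cexp (-((e : ℂ) * (c + I * t)) * ρ)‖ = Real.exp (-(e * c * ρ)) := by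
    rw [norm_exp]
    congr 1
    simp
  rw [norm_div, norm_mul, h2]
  have h3 : 0 ≤ M * Real.exp (-(1 / 2) * t ^ 2) := (norm_nonneg _).trans h1
  have h4 := line_norm c hc t
  calc ‖YY u ((e : ℂ) * (c + I * t))‖ * Real.exp (-(e * c * ρ)) / ‖((c : ℂ) + I * t)‖
      ≤ (M * Real.exp (-(1 / 2) * t ^ 2)) * Real.exp (-(e * c * ρ)) / c := by
        gcongr
    _ = M * Real.exp (-(1 / 2) * t ^ 2) * (Real.exp (-(e * c * ρ)) / c) := by ring

/-- contour shift -/
theorem shiftYY (u c ρ : ℝ) (hc : 0 < c) (hc' : c ≤ 3 / 4) :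
    2 * Real.pi * (ff u : ℂ) =
      (∫ t : ℝ, YY u (c + I * t) * cexp (-(c + I * t) * ρ) / (c + I * t)) +
      ∫ t : ℝ, YY u (-(c + I * t)) * cexp ((c + I * t) * ρ) / (c + I * t) := by
  obtain ⟨M, hM⟩ := YY_bd u
  have h := (Pool.Agent.TH41.LP.SHIFTf.shift (YY u) (3 / 4) c M (1 / 2) (by norm_num) hc
    (by norm_num) (YY_diff u) (fun s h1 h2 => hM s h1 (by linarith)) ρ).2 (-c) (by linarith)
    (by linarith)
  rw [YY_zero] at h
  rw [← h]
  unfold Pool.Agent.TH41.LP.WW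
  rw [← integral_neg_eq_self (fun t : ℝ => YY u (((-c : ℝ) : ℂ) + t * I) /
    (((-c : ℝ) : ℂ) + t * I) * cexp (-(((-c : ℝ) : ℂ) + t * I) * ρ)), sub_eq_add_neg,
    ← integral_neg]
  congr 1
  · refine integral_congr_ae (Eventually.of_forall fun t => ?_)
    simp only
    rw [mul_comm I (t : ℂ)]
    ring
  · refine integral_congr_ae (Eventually.of_forall fun t => ?_)
    simp only
    have e : (((-c : ℝ) : ℂ) + ((-t : ℝ) : ℂ) * I) = -(c + I * t) := by
      push_cast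
      ring
    rw [e, neg_neg, div_neg]
    ring

/-- the main integrand -/
noncomputable def F0 (u c t : ℝ) : ℂ :=
  riemannZeta (1 / 2 + I * u + (c + I * t)) * riemannZeta (1 / 2 - I * u + (c + I * t)) *
    cexp ((c + I * t) ^ 2) * cexp ((c + I * t) * (Real.log (u / (2 * Real.pi)) : ℝ)) /
      (c + I * t)

/-- the factor from the functional equation -/
noncomputable def RR (u c t : ℝ) : ℂ :=
  XF (1 / 2 + (c + I * t) + I * u) * XF (1 / 2 + (c + I * t) - I * u) *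
    cexp (-(2 * (c + I * t) * (Real.log (u / (2 * Real.pi)) : ℝ)))

theorem ne1 (u c t : ℝ) (hc : 1 / 2 < c) : (1 / 2 + I * u + (c + I * t) : ℂ) ≠ 1 := by
  intro h
  have := congrArg Complex.re h
  simp at this
  linarith

theorem ne2 (u c t : ℝ) (hc : 1 / 2 < c) : (1 / 2 - I * u + (c + I * t) : ℂ) ≠ 1 := by
  intro h
  have := congrArg Complex.re h
  simp at this
  linarith

theorem J1_eq (u c t : ℝ) (hc : 1 / 2 < c) :
    YY u (c + I * t) * cexp (-(c + I * t) * ((-Real.log (u / (2 * Real.pi)) : ℝ) : ℂ)) /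
      (c + I * t) = F0 u c t * qq u (c + I * t) := by
  rw [YY_eq u _ (ne1 u c t hc) (ne2 u c t hc)]
  unfold F0
  rw [show (-((c : ℂ) + I * t) * ((-Real.log (u / (2 * Real.pi)) : ℝ) : ℂ)) =
    (c + I * t) * (Real.log (u / (2 * Real.pi)) : ℝ) by push_cast; ring]
  ring

theorem J2_eq (u c t : ℝ) (hc : 1 / 2 < c) :
    YY u (-(c + I * t)) * cexp ((c + I * t) * ((-Real.log (u / (2 * Real.pi)) : ℝ) : ℂ)) /
      (c + I * t) = F0 u c t * qq u (c + I * t) * RR u c t := by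
  rw [YY_neg u _ (by simpa using hc), YY_eq u _ (ne1 u c t hc) (ne2 u c t hc)]
  unfold F0 RR
  rw [show (((c : ℂ) + I * t) * ((-Real.log (u / (2 * Real.pi)) : ℝ) : ℂ)) =
    (c + I * t) * (Real.log (u / (2 * Real.pi)) : ℝ) +
      -(2 * (c + I * t) * (Real.log (u / (2 * Real.pi)) : ℝ)) by push_cast; ring, Complex.exp_add]
  ring

/-- the value of the series -/
noncomputable def ZZ (σ : ℝ) : ℝ := ∑' n : ℕ, 1 / (n : ℝ) ^ σ

theorem norm_term (n : ℕ) (s : ℂ) (hs : 0 < s.re) :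
    ‖(1 / (n : ℂ) ^ s : ℂ)‖ = 1 / (n : ℝ) ^ s.re := by
  rcases Nat.eq_zero_or_pos n with h | h
  · subst h
    have h1 : s ≠ 0 := by rintro rfl; simp at hs
    simp [Complex.zero_cpow h1, Real.zero_rpow hs.ne']
  · rw [norm_div, norm_one, Complex.norm_natCast_cpow_of_pos h]

theorem zeta_le (s : ℂ) (hs : 1 < s.re) : ‖riemannZeta s‖ ≤ ZZ s.re := by
  rw [zeta_eq_tsum_one_div_nat_cpow hs]
  unfold ZZ
  refine tsum_of_norm_bounded (Real.summable_one_div_nat_rpow.2 hs).hasSum fun n => ?_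
  rw [norm_term n s (by linarith)]

theorem ZZ_nonneg (σ : ℝ) : 0 ≤ ZZ σ := tsum_nonneg fun n => by positivity

theorem norm_pw (u c t : ℝ) (hu : 1 ≤ u) (hc : 0 < c) :
    ‖cexp ((c + I * t) * (Real.log (u / (2 * Real.pi)) : ℝ))‖ ≤ u ^ c := by
  rw [norm_exp]
  have h1 : (((c : ℂ) + I * t) * (Real.log (u / (2 * Real.pi)) : ℝ)).re =
      c * Real.log (u / (2 * Real.pi)) := by
    rw [re_mul_ofReal]; simp
  have hpi : 1 ≤ 2 * Real.pi := by linarith [Real.pi_gt_three]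
  rw [h1, Real.rpow_def_of_pos (by linarith), mul_comm (Real.log u)]
  apply Real.exp_le_exp.2
  apply mul_le_mul_of_nonneg_left _ hc.le
  apply Real.log_le_log (by positivity)
  exact div_le_self (by linarith) hpi

theorem norm_gs (c t : ℝ) : ‖cexp (((c : ℂ) + I * t) ^ 2)‖ = Real.exp (c ^ 2 - t ^ 2) := by
  rw [norm_exp]
  congr 1
  rw [pow_two, mul_re]
  simp
  ring

theorem F0_le (u c t : ℝ) (hu : 1 ≤ u) (hc : 1 / 2 < c) :
    ‖F0 u c t‖ ≤ ZZ (1 / 2 + c) ^ 2 * Real.exp (c ^ 2 - t ^ 2) * u ^ c / c := by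
  have hc0 : 0 < c := by linarith
  have h1 : ‖riemannZeta (1 / 2 + I * u + (c + I * t))‖ ≤ ZZ (1 / 2 + c) := by
    have h := zeta_le (1 / 2 + I * u + (c + I * t)) (by simp; linarith)
    simpa using h
  have h2 : ‖riemannZeta (1 / 2 - I * u + (c + I * t))‖ ≤ ZZ (1 / 2 + c) := by
    have h := zeta_le (1 / 2 - I * u + (c + I * t)) (by simp; linarith)
    simpa using h
  have h3 := norm_pw u c t hu hc0
  have h4 := line_norm c hc0 t
  have h5 := ZZ_nonneg (1 / 2 + c)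
  unfold F0
  rw [norm_div, norm_mul, norm_mul, norm_mul, norm_gs, pow_two (ZZ (1 / 2 + c))]
  gcongr

theorem qq_sub (u : ℝ) (hu : 1 ≤ u) (w : ℂ) (x : ℝ) (hx : 1 ≤ x) (hw : ‖w‖ ≤ x) :
    ‖qq u w - 1‖ ≤ 3 * x ^ 4 / u := by
  obtain ⟨P, hP⟩ : ∃ P : ℂ, P = (1 / 2 + I * u) * (1 / 2 - I * u) := ⟨_, rfl⟩
  have hP0 : P ≠ 0 := by rw [hP]; exact ab_ne u
  have hPe : P = ((1 / 4 + u ^ 2 : ℝ) : ℂ) := by
    rw [hP]
    push_cast
    linear_combination (-(u : ℂ) ^ 2) * I_sq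
  have hPn : ‖P‖ = 1 / 4 + u ^ 2 := by
    rw [hPe, norm_real, Real.norm_eq_abs, abs_of_pos (by positivity)]
  have hS : (1 / 2 + I * u : ℂ) ^ 2 + (1 / 2 - I * u) ^ 2 = ((1 / 2 - 2 * u ^ 2 : ℝ) : ℂ) := by
    push_cast
    linear_combination (2 * (u : ℂ) ^ 2) * I_sq
  have e : qq u w - 1 = (w ^ 4 - w ^ 2 * ((1 / 2 - 2 * u ^ 2 : ℝ) : ℂ)) / P ^ 2 := by
    rw [← hS]
    unfold qq
    rw [← hP, eq_div_iff (pow_ne_zero 2 hP0), sub_mul, div_mul_cancel₀ _ (pow_ne_zero 2 hP0), hP]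
    ring
  have hu2 : 1 ≤ u ^ 2 := one_le_pow₀ hu
  have h1 : ‖w ^ 4 - w ^ 2 * ((1 / 2 - 2 * u ^ 2 : ℝ) : ℂ)‖ ≤ x ^ 4 + x ^ 4 * (2 * u ^ 2) := by
    refine (norm_sub_le _ _).trans ?_
    rw [norm_mul, norm_pow, norm_pow, norm_real, Real.norm_eq_abs]
    have h2 : |1 / 2 - 2 * u ^ 2| ≤ 2 * u ^ 2 := by
      rw [abs_le]
      constructor <;> nlinarith
    have h3 : ‖w‖ ^ 2 ≤ x ^ 4 := by
      calc ‖w‖ ^ 2 ≤ x ^ 2 := by gcongr
        _ ≤ x ^ 4 := pow_le_pow_right₀ hx (by norm_num)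
    gcongr
  rw [e, norm_div, norm_pow, hPn, div_le_div_iff₀ (by positivity) (by linarith)]
  have h4 : x ^ 4 + x ^ 4 * (2 * u ^ 2) ≤ 3 * x ^ 4 * u ^ 2 := by
    have : 0 ≤ x ^ 4 := by positivity
    nlinarith
  have h5 : u ^ 2 * u ≤ (1 / 4 + u ^ 2) ^ 2 := by nlinarith
  have hx4 : 0 ≤ x ^ 4 := by positivity
  calc ‖w ^ 4 - w ^ 2 * ((1 / 2 - 2 * u ^ 2 : ℝ) : ℂ)‖ * u
      ≤ (3 * x ^ 4 * u ^ 2) * u := by
        apply mul_le_mul_of_nonneg_right (h1.trans h4) (by linarith)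
    _ = 3 * x ^ 4 * (u ^ 2 * u) := by ring
    _ ≤ 3 * x ^ 4 * (1 / 4 + u ^ 2) ^ 2 := mul_le_mul_of_nonneg_left h5 (by positivity)

theorem F0_cont (u c : ℝ) (hc : 1 / 2 < c) : Continuous (F0 u c) := by
  have h1 : Continuous (fun t : ℝ => riemannZeta (1 / 2 + I * u + (c + I * t))) := by
    rw [continuous_iff_continuousAt]
    intro t
    exact ContinuousAt.comp (f := fun t : ℝ => (1 / 2 + I * u + (c + I * t) : ℂ))
      (differentiableAt_riemannZeta (ne1 u c t hc)).continuousAt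
      (Continuous.continuousAt (by fun_prop))
  have h2 : Continuous (fun t : ℝ => riemannZeta (1 / 2 - I * u + (c + I * t))) := by
    rw [continuous_iff_continuousAt]
    intro t
    exact ContinuousAt.comp (f := fun t : ℝ => (1 / 2 - I * u + (c + I * t) : ℂ))
      (differentiableAt_riemannZeta (ne2 u c t hc)).continuousAt
      (Continuous.continuousAt (by fun_prop))
  unfold F0
  exact (((h1.mul h2).mul (by fun_prop)).mul (by fun_prop)).div (by fun_prop)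
    (fun t => line_ne c (by linarith) t)

theorem exp_le_half (c t : ℝ) :
    Real.exp (c ^ 2 - t ^ 2) ≤ Real.exp (c ^ 2) * Real.exp (-(1 / 2) * t ^ 2) := by
  rw [← Real.exp_add]
  apply Real.exp_le_exp.2
  nlinarith [sq_nonneg t]

theorem F0_int (u c : ℝ) (hu : 1 ≤ u) (hc : 1 / 2 < c) : Integrable (F0 u c) := by
  have hc0 : 0 < c := by linarith
  refine Integrable.mono' ((integrable_exp_neg_mul_sq (show (0 : ℝ) < 1 / 2 by norm_num)).const_mul
    (ZZ (1 / 2 + c) ^ 2 * Real.exp (c ^ 2) * u ^ c / c)) (F0_cont u c hc).aestronglyMeasurable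
    (Eventually.of_forall fun t => ?_)
  refine (F0_le u c t hu hc).trans ?_
  have h1 := exp_le_half c t
  have h2 : 0 ≤ u ^ c := by positivity
  calc ZZ (1 / 2 + c) ^ 2 * Real.exp (c ^ 2 - t ^ 2) * u ^ c / c
      ≤ ZZ (1 / 2 + c) ^ 2 * (Real.exp (c ^ 2) * Real.exp (-(1 / 2) * t ^ 2)) * u ^ c / c := by
        gcongr
    _ = _ := by ring

/-- the first form: main integral plus error -/
theorem partB (hCHI : S_CHI) (c : ℝ) (hc : 1 / 2 < c) (hc' : c ≤ 3 / 4) :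
    ∃ C : ℝ, 0 < C ∧ ∀ u : ℝ, 1 ≤ u →
      ‖2 * Real.pi * (ff u : ℂ) - 2 * ∫ t : ℝ, F0 u c t‖ ≤ C * u ^ (c - 1) := by
  obtain ⟨C, A, hC, hR⟩ := hCHI c (by linarith) (by linarith)
  have hc0 : 0 < c := by linarith
  obtain ⟨D, hD⟩ : ∃ D : ℝ, D = ZZ (1 / 2 + c) ^ 2 * Real.exp (c ^ 2) / c * (6 + 4 * C) *
    ((A + 4).factorial * Real.exp (3 / 2)) := ⟨_, rfl⟩
  have hZ := ZZ_nonneg (1 / 2 + c)
  have hD0 : 0 ≤ D := by rw [hD]; positivity
  obtain ⟨G, hG⟩ : ∃ G : ℝ, G = ∫ t : ℝ, Real.exp (-(1 / 2) * t ^ 2) := ⟨_, rfl⟩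
  have hG0 : 0 ≤ G := by rw [hG]; exact integral_nonneg fun t => (Real.exp_pos _).le
  have hgi := integrable_exp_neg_mul_sq (show (0 : ℝ) < 1 / 2 by norm_num)
  refine ⟨D * G + 1, by positivity, fun u hu => ?_⟩
  have hu0 : 0 < u := by linarith
  obtain ⟨ρ, hρ⟩ : ∃ ρ : ℝ, ρ = -Real.log (u / (2 * Real.pi)) := ⟨_, rfl⟩
  have h1 := shiftYY u c ρ hc0 hc'
  have i1 : Integrable (fun t : ℝ => F0 u c t * qq u (c + I * t)) := by
    have h := int_aux u c ρ 1 hc0 hc' (by norm_num)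
    refine h.congr (Eventually.of_forall fun t => ?_)
    simp only [ofReal_one, one_mul]
    rw [hρ]
    exact J1_eq u c t hc
  have i2 : Integrable (fun t : ℝ => F0 u c t * qq u (c + I * t) * RR u c t) := by
    have h := int_aux u c ρ (-1) hc0 hc' (by norm_num)
    refine h.congr (Eventually.of_forall fun t => ?_)
    simp only [ofReal_neg, ofReal_one, neg_mul, one_mul, neg_neg]
    rw [hρ]
    exact J2_eq u c t hc
  have e1 : (∫ t : ℝ, YY u (c + I * t) * cexp (-(c + I * t) * ρ) / (c + I * t)) =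
      ∫ t : ℝ, F0 u c t * qq u (c + I * t) := by
    refine integral_congr_ae (Eventually.of_forall fun t => ?_)
    simp only
    rw [hρ]
    exact J1_eq u c t hc
  have e2 : (∫ t : ℝ, YY u (-(c + I * t)) * cexp ((c + I * t) * ρ) / (c + I * t)) =
      ∫ t : ℝ, F0 u c t * qq u (c + I * t) * RR u c t := by
    refine integral_congr_ae (Eventually.of_forall fun t => ?_)
    simp only
    rw [hρ]
    exact J2_eq u c t hc
  have i0 := F0_int u c hu hc
  have i12 : Integrable (fun t : ℝ => F0 u c t * qq u (c + I * t) +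
      F0 u c t * qq u (c + I * t) * RR u c t) := i1.add i2
  have i3 : Integrable (fun t : ℝ => 2 * F0 u c t) := i0.const_mul 2
  rw [h1, e1, e2, ← integral_add i1 i2, ← integral_const_mul, ← integral_sub i12 i3]
  have hb : ∀ t : ℝ, ‖F0 u c t * qq u (c + I * t) + F0 u c t * qq u (c + I * t) * RR u c t -
      2 * F0 u c t‖ ≤ D * u ^ (c - 1) * Real.exp (-(1 / 2) * t ^ 2) := by
    intro t
    obtain ⟨x, hx⟩ : ∃ x : ℝ, x = 1 + |t| := ⟨_, rfl⟩
    have hx1 : 1 ≤ x := by rw [hx]; linarith [abs_nonneg t]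
    have hwx : ‖(c : ℂ) + I * t‖ ≤ x := by
      have h3 := norm_le_abs_re_add_abs_im ((c : ℂ) + I * t)
      have h4 : ((c : ℂ) + I * t).re = c := by simp
      have h5 : ((c : ℂ) + I * t).im = t := by simp
      rw [h4, h5, abs_of_pos hc0] at h3
      rw [hx]; linarith
    have hq := qq_sub u hu (c + I * t) x hx1 hwx
    have hr : ‖RR u c t - 1‖ ≤ C * x ^ A / u := by
      have := hR u t hu
      rw [← hx] at this
      exact this
    have hqn : ‖qq u (c + I * t)‖ ≤ 4 * x ^ 4 := by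
      have h3 : qq u (c + I * t) = (qq u (c + I * t) - 1) + 1 := by ring
      rw [h3]
      refine (norm_add_le _ _).trans ?_
      rw [norm_one]
      have h4 : 3 * x ^ 4 / u ≤ 3 * x ^ 4 := div_le_self (by positivity) hu
      have h5 : 1 ≤ x ^ 4 := one_le_pow₀ hx1
      linarith
    have hF := F0_le u c t hu hc
    have e3 : F0 u c t * qq u (c + I * t) + F0 u c t * qq u (c + I * t) * RR u c t -
        2 * F0 u c t = F0 u c t * (2 * (qq u (c + I * t) - 1) + qq u (c + I * t) *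
          (RR u c t - 1)) := by ring
    rw [e3, norm_mul]
    have h6 : ‖2 * (qq u (c + I * t) - 1) + qq u (c + I * t) * (RR u c t - 1)‖ ≤
        (6 + 4 * C) * x ^ (A + 4) / u := by
      refine (norm_add_le _ _).trans ?_
      rw [norm_mul, norm_mul, show ‖(2 : ℂ)‖ = 2 by simp]
      have h7 : x ^ 4 ≤ x ^ (A + 4) := pow_le_pow_right₀ hx1 (by omega)
      calc 2 * ‖qq u (c + I * t) - 1‖ + ‖qq u (c + I * t)‖ * ‖RR u c t - 1‖
          ≤ 2 * (3 * x ^ 4 / u) + (4 * x ^ 4) * (C * x ^ A / u) := by gcongr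
        _ = (6 * x ^ 4 + 4 * C * x ^ (A + 4)) / u := by rw [pow_add]; ring
        _ ≤ (6 * x ^ (A + 4) + 4 * C * x ^ (A + 4)) / u := by gcongr
        _ = _ := by ring
    have hpe := poly_exp (A + 4) t
    rw [← hx] at hpe
    have hexp : Real.exp (c ^ 2 - t ^ 2) = Real.exp (c ^ 2) * Real.exp (-(1 / 2) * t ^ 2) *
        Real.exp (-(1 / 2) * t ^ 2) := by
      rw [← Real.exp_add, ← Real.exp_add]
      congr 1
      ring
    have hpw : u ^ c / u = u ^ (c - 1) := by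
      rw [Real.rpow_sub hu0, Real.rpow_one]
    have hnn : 0 ≤ ZZ (1 / 2 + c) ^ 2 * Real.exp (c ^ 2) / c * (6 + 4 * C) * u ^ (c - 1) *
        Real.exp (-(1 / 2) * t ^ 2) := by positivity
    calc ‖F0 u c t‖ * ‖2 * (qq u (c + I * t) - 1) + qq u (c + I * t) * (RR u c t - 1)‖
        ≤ (ZZ (1 / 2 + c) ^ 2 * Real.exp (c ^ 2 - t ^ 2) * u ^ c / c) *
          ((6 + 4 * C) * x ^ (A + 4) / u) := by gcongr
      _ = (ZZ (1 / 2 + c) ^ 2 * Real.exp (c ^ 2) / c * (6 + 4 * C) * u ^ (c - 1) *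
          Real.exp (-(1 / 2) * t ^ 2)) * (x ^ (A + 4) * Real.exp (-(1 / 2) * t ^ 2)) := by
          rw [hexp, ← hpw]; ring
      _ ≤ (ZZ (1 / 2 + c) ^ 2 * Real.exp (c ^ 2) / c * (6 + 4 * C) * u ^ (c - 1) *
          Real.exp (-(1 / 2) * t ^ 2)) * ((A + 4).factorial * Real.exp (3 / 2)) :=
          mul_le_mul_of_nonneg_left hpe hnn
      _ = D * u ^ (c - 1) * Real.exp (-(1 / 2) * t ^ 2) := by rw [hD]; ring
  have h8 := norm_integral_le_of_norm_le (hgi.const_mul (D * u ^ (c - 1)))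
    (Eventually.of_forall hb)
  refine h8.trans ?_
  rw [integral_const_mul, ← hG]
  have hup : 0 ≤ u ^ (c - 1) := by positivity
  nlinarith

end Pool.Agent.Y891.GP
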